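import Mathlib

set_option autoImplicit false

namespace Pool.Agent.Results.MP_a6ecd6_co.MultiplexNoPlex

/-- `Q : [n]^d → [n]` is a latin hypercube: along every axis-parallel line (all coordinates but
one fixed) every symbol occurs exactly once. -/
def IsLatinHypercube {d n : ℕ} (Q : (Fin d → Fin n) → Fin n) : Prop :=
  ∀ (i : Fin d) (x : Fin d → Fin n),
    Function.Bijective (fun a : Fin n => Q (Function.update x i a))

/-- The multiset `K` of cells is a `k`-multiplex of `Q`: it has `k * n` cells, every hyperplane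
`x i = a` contains exactly `k` of them and every symbol `s` is the entry of exactly `k` of them,
all counted with multiplicity. -/
def IsMultiplex {d n : ℕ} (Q : (Fin d → Fin n) → Fin n) (k : ℕ)
    (K : Multiset (Fin d → Fin n)) : Prop :=
  Multiset.card K = k * n ∧
  (∀ (i : Fin d) (a : Fin n), Multiset.card (K.filter (fun x => x i = a)) = k) ∧
  (∀ s : Fin n, Multiset.card (K.filter (fun x => Q x = s)) = k)

/-- A `k`-plex is a `k`-multiplex in which no cell is repeated. -/
def IsPlex {d n : ℕ} (Q : (Fin d → Fin n) → Fin n) (k : ℕ)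
    (K : Multiset (Fin d → Fin n)) : Prop :=
  IsMultiplex Q k K ∧ K.Nodup

/-- The latin square of order six used as counterexample. -/
def L : Fin 6 → Fin 6 → Fin 6 :=
  ![![2, 0, 4, 5, 1, 3], ![4, 2, 3, 1, 5, 0], ![3, 5, 1, 0, 4, 2],
    ![5, 3, 0, 4, 2, 1], ![1, 4, 2, 3, 0, 5], ![0, 1, 5, 2, 3, 4]]

/-- The same square as a two-dimensional hypercube. -/
def Q : (Fin 2 → Fin 6) → Fin 6 := fun x => L (x 0) (x 1)

lemma L_row : ∀ r : Fin 6, Function.Injective (L r) := by decide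

lemma L_col : ∀ c : Fin 6, Function.Injective (fun r => L r c) := by decide

lemma Q_latin : IsLatinHypercube Q := by
  intro i x
  apply Finite.injective_iff_bijective.mp
  fin_cases i
  · intro a b h
    simp only [Q] at h
    simp at h
    exact L_col (x 1) h
  · intro a b h
    simp only [Q] at h
    simp at h
    exact L_row (x 0) h

/-- The cells of a 3-plex followed by the cells of a 2-plex. -/
def cells : List (Fin 6 × Fin 6) :=
  [(0,0),(0,1),(0,2),(1,0),(1,2),(1,3),(2,1),(2,4),(2,5),(3,0),(3,2),(3,5),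
   (4,3),(4,4),(4,5),(5,1),(5,3),(5,4),
   (0,0),(0,1),(1,0),(1,2),(2,1),(2,2),(3,3),(3,5),(4,4),(4,5),(5,3),(5,4)]

/-- The 5-multiplex: the sum of a 3-plex and a 2-plex. -/
def K5 : Multiset (Fin 2 → Fin 6) := ((cells.map (fun p => ![p.1, p.2]) : List (Fin 2 → Fin 6)) : Multiset _)

lemma K5_multiplex : IsMultiplex Q 5 K5 := by
  refine ⟨by decide, by decide, by decide⟩

/-- Exhaustive search, row by row, for a transversal: `true` means that none exists. -/
def search : Bool :=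
  (List.finRange 6).all fun a0 => (List.finRange 6).all fun a1 =>
    decide (a1 ∈ [a0] ∨ L 1 a1 ∈ [L 0 a0]) || ((List.finRange 6).all fun a2 =>
    decide (a2 ∈ [a0, a1] ∨ L 2 a2 ∈ [L 0 a0, L 1 a1]) || ((List.finRange 6).all fun a3 =>
    decide (a3 ∈ [a0, a1, a2] ∨ L 3 a3 ∈ [L 0 a0, L 1 a1, L 2 a2]) ||
      ((List.finRange 6).all fun a4 =>
    decide (a4 ∈ [a0, a1, a2, a3] ∨ L 4 a4 ∈ [L 0 a0, L 1 a1, L 2 a2, L 3 a3]) ||
      ((List.finRange 6).all fun a5 =>
    decide (a5 ∈ [a0, a1, a2, a3, a4] ∨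
      L 5 a5 ∈ [L 0 a0, L 1 a1, L 2 a2, L 3 a3, L 4 a4])))))

lemma search_true : search = true := by decide

lemma no_injective (σ : Fin 6 → Fin 6) (h1 : Function.Injective σ)
    (h2 : Function.Injective (fun a => L a (σ a))) : False := by
  have e1 : ∀ i j : Fin 6, i ≠ j → σ i ≠ σ j := fun i j h => h1.ne h
  have e2 : ∀ i j : Fin 6, i ≠ j → L i (σ i) ≠ L j (σ j) := fun i j h => h2.ne h
  have hs := search_true
  simp only [search, List.all_eq_true, List.mem_finRange, forall_const, Bool.or_eq_true,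
    decide_eq_true_eq] at hs
  have f1 : σ 1 ≠ σ 0 := e1 _ _ (by decide)
  have f2 : σ 2 ≠ σ 0 := e1 _ _ (by decide)
  have f3 : σ 2 ≠ σ 1 := e1 _ _ (by decide)
  have f4 : σ 3 ≠ σ 0 := e1 _ _ (by decide)
  have f5 : σ 3 ≠ σ 1 := e1 _ _ (by decide)
  have f6 : σ 3 ≠ σ 2 := e1 _ _ (by decide)
  have f7 : σ 4 ≠ σ 0 := e1 _ _ (by decide)
  have f8 : σ 4 ≠ σ 1 := e1 _ _ (by decide)
  have f9 : σ 4 ≠ σ 2 := e1 _ _ (by decide)
  have f10 : σ 4 ≠ σ 3 := e1 _ _ (by decide)
  have f11 : σ 5 ≠ σ 0 := e1 _ _ (by decide)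
  have f12 : σ 5 ≠ σ 1 := e1 _ _ (by decide)
  have f13 : σ 5 ≠ σ 2 := e1 _ _ (by decide)
  have f14 : σ 5 ≠ σ 3 := e1 _ _ (by decide)
  have f15 : σ 5 ≠ σ 4 := e1 _ _ (by decide)
  have g1 := e2 1 0 (by decide)
  have g2 := e2 2 0 (by decide)
  have g3 := e2 2 1 (by decide)
  have g4 := e2 3 0 (by decide)
  have g5 := e2 3 1 (by decide)
  have g6 := e2 3 2 (by decide)
  have g7 := e2 4 0 (by decide)
  have g8 := e2 4 1 (by decide)
  have g9 := e2 4 2 (by decide)
  have g10 := e2 4 3 (by decide)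
  have g11 := e2 5 0 (by decide)
  have g12 := e2 5 1 (by decide)
  have g13 := e2 5 2 (by decide)
  have g14 := e2 5 3 (by decide)
  have g15 := e2 5 4 (by decide)
  have k2 := (hs (σ 0) (σ 1)).resolve_left (by
    simp only [List.mem_cons, List.not_mem_nil, or_false]; tauto)
  have k3 := (k2 (σ 2)).resolve_left (by
    simp only [List.mem_cons, List.not_mem_nil, or_false]; tauto)
  have k4 := (k3 (σ 3)).resolve_left (by
    simp only [List.mem_cons, List.not_mem_nil, or_false]; tauto)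
  have k5 := (k4 (σ 4)).resolve_left (by
    simp only [List.mem_cons, List.not_mem_nil, or_false]; tauto)
  have k6 := k5 (σ 5)
  simp only [List.mem_cons, List.not_mem_nil, or_false] at k6
  tauto

lemma card_all (p : (Fin 2 → Fin 6) → Prop) [DecidablePred p] (F : Finset (Fin 2 → Fin 6))
    (h : (F.filter p).card = 5) (hall : (Finset.univ.filter p).card = 6) :
    (Fᶜ.filter p).card = 1 := by
  have h1 : Fᶜ.filter p = Finset.univ.filter p \ F.filter p := by
    ext x
    simp only [Finset.mem_filter, Finset.mem_compl, Finset.mem_sdiff, Finset.mem_univ, true_and]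
    tauto
  rw [h1, Finset.card_sdiff_of_subset (Finset.filter_subset_filter _ (Finset.subset_univ _)),
    h, hall]

lemma no_plex : ¬ ∃ K, IsPlex Q 5 K := by
  rintro ⟨K, ⟨-, hhyp, hsym⟩, hnd⟩
  set F : Finset (Fin 2 → Fin 6) := ⟨K, hnd⟩ with hF
  have hfil : ∀ (p : (Fin 2 → Fin 6) → Prop) [DecidablePred p],
      (F.filter p).card = Multiset.card (K.filter p) := fun p _ => rfl
  have hrow : ∀ a : Fin 6, (Fᶜ.filter (fun x => x 0 = a)).card = 1 := by
    intro a
    apply card_all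
    · rw [hfil]; exact hhyp 0 a
    · revert a; decide
  have hcol : ∀ a : Fin 6, (Fᶜ.filter (fun x => x 1 = a)).card = 1 := by
    intro a
    apply card_all
    · rw [hfil]; exact hhyp 1 a
    · revert a; decide
  have hsy : ∀ s : Fin 6, (Fᶜ.filter (fun x => Q x = s)).card = 1 := by
    intro s
    apply card_all
    · rw [hfil]; exact hsym s
    · revert s; decide
  have hex : ∀ a : Fin 6, ∃ x, x ∈ Fᶜ.filter (fun x : Fin 2 → Fin 6 => x 0 = a) := by
    intro a
    obtain ⟨x, hx⟩ := Finset.card_eq_one.mp (hrow a)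
    exact ⟨x, by rw [hx]; exact Finset.mem_singleton_self x⟩
  choose t ht using hex
  have ht1 : ∀ a, t a ∈ Fᶜ := fun a => (Finset.mem_filter.mp (ht a)).1
  have ht0 : ∀ a, t a 0 = a := fun a => (Finset.mem_filter.mp (ht a)).2
  apply no_injective (fun a => t a 1)
  · intro a b hab
    have hab' : t a 1 = t b 1 := hab
    obtain ⟨x, hx⟩ := Finset.card_eq_one.mp (hcol (t b 1))
    have ha : t a ∈ Fᶜ.filter (fun x : Fin 2 → Fin 6 => x 1 = t b 1) :=
      Finset.mem_filter.mpr ⟨ht1 a, hab'⟩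
    have hb : t b ∈ Fᶜ.filter (fun x : Fin 2 → Fin 6 => x 1 = t b 1) :=
      Finset.mem_filter.mpr ⟨ht1 b, rfl⟩
    rw [hx, Finset.mem_singleton] at ha hb
    rw [← ht0 a, ← ht0 b, ha, hb]
  · intro a b hab
    have hab' : L a (t a 1) = L b (t b 1) := hab
    have hQa : Q (t a) = L a (t a 1) := by simp only [Q, ht0]
    have hQb : Q (t b) = L b (t b 1) := by simp only [Q, ht0]
    obtain ⟨x, hx⟩ := Finset.card_eq_one.mp (hsy (Q (t b)))
    have ha : t a ∈ Fᶜ.filter (fun x : Fin 2 → Fin 6 => Q x = Q (t b)) :=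
      Finset.mem_filter.mpr ⟨ht1 a, by rw [hQa, hQb, hab']⟩
    have hb : t b ∈ Fᶜ.filter (fun x : Fin 2 → Fin 6 => Q x = Q (t b)) :=
      Finset.mem_filter.mpr ⟨ht1 b, rfl⟩
    rw [hx, Finset.mem_singleton] at ha hb
    rw [← ht0 a, ← ht0 b, ha, hb]

/-- There is a latin square of order 6 (a latin hypercube with `d = 2`, `n = 6`) that has a
5-multiplex but no 5-plex; note `5 ≤ 6 ^ (2 - 1)`. -/
theorem result :
    ∃ Q : (Fin 2 → Fin 6) → Fin 6, IsLatinHypercube Q ∧
      (∃ K : Multiset (Fin 2 → Fin 6), IsMultiplex Q 5 K) ∧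
      ¬ ∃ K : Multiset (Fin 2 → Fin 6), IsPlex Q 5 K :=
  ⟨Q, Q_latin, ⟨K5, K5_multiplex⟩, no_plex⟩

end Pool.Agent.Results.MP_a6ecd6_co.MultiplexNoPlex
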